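import Pool.Agent.H3.BT.Defs

/-!
# Sums of `k` exponentials on a window: maximum and variation against the mean square
-/

set_option autoImplicit false

open Finset Pool.Agent.H6.N4D
open Pool.Agent.H3.BT (fs)

namespace Pool.Agent.H81.HB

lemma ee_add' (x y : ℝ) : ee (x + y) = ee x * ee y := by
  unfold ee
  rw [← Complex.exp_add]
  congr 1
  push_cast
  ring

lemma ee0 : ee 0 = 1 := by
  unfold ee
  simp

lemma ee_nsmul (x : ℝ) (i : ℕ) : ee (i * x) = ee x ^ i := by
  unfold ee
  rw [← Complex.exp_nat_mul]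
  congr 1
  push_cast
  ring

/-- a sum of `k` terms is bounded by its next `k` values along unimodular ratios -/
lemma uni : ∀ (k : ℕ) (c w : ℕ → ℂ) (M : ℝ), 0 ≤ M → (∀ r, ‖w r‖ = 1) →
    (∀ i, 1 ≤ i → i ≤ k → ‖∑ r ∈ range k, c r * w r ^ i‖ ≤ M) →
    ‖∑ r ∈ range k, c r‖ ≤ (2 ^ k - 1) * M := by
  intro k
  induction k with
  | zero =>
    intro c w M _ _ _
    simp
  | succ k ih =>
    intro c w M hM hw h
    have hT : ∀ i, ∑ r ∈ range k, (c r * (w r - w k)) * w r ^ i =
        ∑ r ∈ range (k + 1), c r * w r ^ (i + 1) - w k * ∑ r ∈ range (k + 1), c r * w r ^ i := by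
      intro i
      rw [mul_sum, ← sum_sub_distrib, sum_range_succ]
      have e1 : c k * w k ^ (i + 1) - w k * (c k * w k ^ i) = 0 := by
        rw [pow_succ]
        ring
      rw [e1, add_zero]
      refine sum_congr rfl fun r _ => ?_
      rw [pow_succ]
      ring
    have h1 := ih (fun r => c r * (w r - w k)) w (2 * M) (by linarith) hw (by
      intro i hi1 hi2
      rw [hT]
      refine (norm_sub_le _ _).trans ?_
      rw [norm_mul, hw k, one_mul]
      have a1 := h (i + 1) (by omega) (by omega)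
      have a2 := h i hi1 (by omega)
      linarith)
    have h0 := hT 0
    simp only [pow_zero, mul_one, zero_add, pow_one] at h0
    have h2 : ‖∑ r ∈ range (k + 1), c r‖ = ‖w k * ∑ r ∈ range (k + 1), c r‖ := by
      rw [norm_mul, hw k, one_mul]
    have h3 : w k * ∑ r ∈ range (k + 1), c r =
        ∑ r ∈ range (k + 1), c r * w r - ∑ r ∈ range k, c r * (w r - w k) := by
      rw [h0]
      ring
    rw [h2, h3]
    refine (norm_sub_le _ _).trans ?_
    have a1 := h 1 le_rfl (by omega)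
    simp only [pow_one] at a1
    have e : ((2 : ℝ) ^ (k + 1) - 1) * M = M + (2 ^ k - 1) * (2 * M) := by
      rw [pow_succ]
      ring
    rw [e]
    linarith

lemma uni2 (k : ℕ) (c w : ℕ → ℂ) (hw : ∀ r, ‖w r‖ = 1) :
    ‖∑ r ∈ range k, c r‖ ^ 2 ≤
      4 ^ k * ∑ i ∈ Icc 1 k, ‖∑ r ∈ range k, c r * w r ^ i‖ ^ 2 := by
  obtain ⟨T, hT⟩ : ∃ T : ℝ, T = ∑ i ∈ Icc 1 k, ‖∑ r ∈ range k, c r * w r ^ i‖ ^ 2 := ⟨_, rfl⟩
  have hT0 : 0 ≤ T := by
    rw [hT]
    exact sum_nonneg fun _ _ => by positivity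
  have h1 := uni k c w (Real.sqrt T) (Real.sqrt_nonneg _) hw (by
    intro i hi1 hi2
    apply Real.le_sqrt_of_sq_le
    rw [hT]
    exact single_le_sum (f := fun i => ‖∑ r ∈ range k, c r * w r ^ i‖ ^ 2)
      (fun _ _ => by positivity) (mem_Icc.2 ⟨hi1, hi2⟩))
  rw [← hT]
  have h2 : ‖∑ r ∈ range k, c r‖ ≤ 2 ^ k * Real.sqrt T := by
    refine h1.trans (mul_le_mul_of_nonneg_right ?_ (Real.sqrt_nonneg _))
    linarith
  have h3 := pow_le_pow_left₀ (norm_nonneg _) h2 2
  rw [mul_pow, Real.sq_sqrt hT0, ← pow_mul, mul_comm k 2, pow_mul] at h3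
  norm_num at h3
  exact h3

lemma fwd (k : ℕ) (b : ℕ → ℂ) (α : ℕ → ℝ) (x h : ℕ) :
    ‖fs k b α x‖ ^ 2 ≤ 4 ^ k * ∑ i ∈ Icc 1 k, ‖fs k b α (x + i * h)‖ ^ 2 := by
  have h1 := uni2 k (fun r => b r * ee (α r * x)) (fun r => ee (α r * h))
    (fun r => norm_ee _)
  refine h1.trans (le_of_eq ?_)
  congr 1
  refine sum_congr rfl fun i _ => ?_
  congr 2
  unfold fs
  refine sum_congr rfl fun r _ => ?_
  rw [mul_assoc, ← ee_nsmul, ← ee_add']
  congr 2
  push_cast
  ring

lemma bwd (k : ℕ) (b : ℕ → ℂ) (α : ℕ → ℝ) (x h : ℕ) (hx : k * h ≤ x) :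
    ‖fs k b α x‖ ^ 2 ≤ 4 ^ k * ∑ i ∈ Icc 1 k, ‖fs k b α (x - i * h)‖ ^ 2 := by
  have h1 := uni2 k (fun r => b r * ee (α r * x)) (fun r => ee (-(α r * h)))
    (fun r => norm_ee _)
  refine h1.trans (le_of_eq ?_)
  congr 1
  refine sum_congr rfl fun i hi => ?_
  rw [mem_Icc] at hi
  have hi2 : i * h ≤ x := (Nat.mul_le_mul_right _ hi.2).trans hx
  congr 2
  unfold fs
  refine sum_congr rfl fun r _ => ?_
  rw [mul_assoc, ← ee_nsmul, ← ee_add']
  congr 2
  rw [Nat.cast_sub hi2]
  push_cast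
  ring

/-- TUR. The maximum on the window is bounded by the mean square. -/
theorem tur (k N n : ℕ) (b : ℕ → ℂ) (α : ℕ → ℝ) (hk : 1 ≤ k) (hN : 2 * k ≤ N) (x : ℕ)
    (hx : x ∈ Ioc n (n + N)) :
    ‖fs k b α x‖ ^ 2 ≤
      4 * k ^ 2 * 4 ^ k * ((∑ y ∈ Ioc n (n + N), ‖fs k b α y‖ ^ 2) / N) := by
  rw [mem_Ioc] at hx
  obtain ⟨M, hMd⟩ : ∃ M : ℕ, M = N / (2 * k) := ⟨_, rfl⟩
  have hM1 : 1 ≤ M := by
    rw [hMd, Nat.one_le_div_iff (by omega)]
    exact hN
  have hM2 : M * (2 * k) ≤ N := by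
    rw [hMd]
    exact Nat.div_mul_le_self _ _
  have hM3 : N < (M + 1) * (2 * k) := by
    have a1 := Nat.div_add_mod N (2 * k)
    have a2 := Nat.mod_lt N (show 0 < 2 * k by omega)
    rw [← hMd] at a1
    calc N = 2 * k * M + N % (2 * k) := a1.symm
      _ < 2 * k * M + 2 * k := by omega
      _ = (M + 1) * (2 * k) := by ring
  have hkM : 2 * (k * M) ≤ N := by
    calc 2 * (k * M) = M * (2 * k) := by ring
      _ ≤ N := hM2
  obtain ⟨T, hT⟩ : ∃ T : ℝ, T = ∑ y ∈ Ioc n (n + N), ‖fs k b α y‖ ^ 2 := ⟨_, rfl⟩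
  have hT0 : 0 ≤ T := by
    rw [hT]
    exact sum_nonneg fun _ _ => by positivity
  rw [← hT]
  -- the bound with `M`
  have key : (M : ℝ) * ‖fs k b α x‖ ^ 2 ≤ 4 ^ k * (k * T) := by
    rcases le_or_gt (x + k * M) (n + N) with hc | hc
    · have h1 : ∑ h ∈ Icc 1 M, ‖fs k b α x‖ ^ 2 ≤
          ∑ h ∈ Icc 1 M, 4 ^ k * ∑ i ∈ Icc 1 k, ‖fs k b α (x + i * h)‖ ^ 2 :=
        sum_le_sum fun h _ => fwd k b α x h
      rw [sum_const, Nat.card_Icc, nsmul_eq_mul, ← mul_sum, sum_comm] at h1
      have h2 : ∀ i ∈ Icc 1 k, ∑ h ∈ Icc 1 M, ‖fs k b α (x + i * h)‖ ^ 2 ≤ T := by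
        intro i hi
        rw [mem_Icc] at hi
        have h3 : ∑ h ∈ Icc 1 M, ‖fs k b α (x + i * h)‖ ^ 2 =
            ∑ y ∈ (Icc 1 M).image (fun h => x + i * h), ‖fs k b α y‖ ^ 2 := by
          rw [sum_image]
          intro u _ v _ huv
          have h4 : i * u = i * v := by
            have : x + i * u = x + i * v := huv
            omega
          exact Nat.eq_of_mul_eq_mul_left (by omega) h4
        rw [h3, hT]
        refine sum_le_sum_of_subset_of_nonneg ?_ fun _ _ _ => by positivity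
        intro y hy
        rw [mem_image] at hy
        obtain ⟨u, hu, rfl⟩ := hy
        rw [mem_Icc] at hu
        rw [mem_Ioc]
        have h4 : i * u ≤ k * M := Nat.mul_le_mul hi.2 hu.2
        omega
      have h3 := sum_le_sum h2
      rw [sum_const, Nat.card_Icc, nsmul_eq_mul] at h3
      have e1 : ((M + 1 - 1 : ℕ) : ℝ) = M := by norm_num
      have e2 : ((k + 1 - 1 : ℕ) : ℝ) = k := by norm_num
      rw [e1] at h1
      rw [e2] at h3
      exact h1.trans (mul_le_mul_of_nonneg_left h3 (by positivity))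
    · have hx2 : n + k * M < x := by omega
      have h1 : ∑ h ∈ Icc 1 M, ‖fs k b α x‖ ^ 2 ≤
          ∑ h ∈ Icc 1 M, 4 ^ k * ∑ i ∈ Icc 1 k, ‖fs k b α (x - i * h)‖ ^ 2 := by
        refine sum_le_sum fun h hh => bwd k b α x h ?_
        rw [mem_Icc] at hh
        have : k * h ≤ k * M := Nat.mul_le_mul_left _ hh.2
        omega
      rw [sum_const, Nat.card_Icc, nsmul_eq_mul, ← mul_sum, sum_comm] at h1
      have h2 : ∀ i ∈ Icc 1 k, ∑ h ∈ Icc 1 M, ‖fs k b α (x - i * h)‖ ^ 2 ≤ T := by
        intro i hi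
        rw [mem_Icc] at hi
        have h3 : ∑ h ∈ Icc 1 M, ‖fs k b α (x - i * h)‖ ^ 2 =
            ∑ y ∈ (Icc 1 M).image (fun h => x - i * h), ‖fs k b α y‖ ^ 2 := by
          rw [sum_image]
          intro u hu v hv huv
          rw [mem_coe, mem_Icc] at hu hv
          have a1 : i * u ≤ k * M := Nat.mul_le_mul hi.2 hu.2
          have a2 : i * v ≤ k * M := Nat.mul_le_mul hi.2 hv.2
          have h4 : i * u = i * v := by
            have : x - i * u = x - i * v := huv
            omega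
          exact Nat.eq_of_mul_eq_mul_left (by omega) h4
        rw [h3, hT]
        refine sum_le_sum_of_subset_of_nonneg ?_ fun _ _ _ => by positivity
        intro y hy
        rw [mem_image] at hy
        obtain ⟨u, hu, rfl⟩ := hy
        rw [mem_Icc] at hu
        rw [mem_Ioc]
        have h4 : i * u ≤ k * M := Nat.mul_le_mul hi.2 hu.2
        omega
      have h3 := sum_le_sum h2
      rw [sum_const, Nat.card_Icc, nsmul_eq_mul] at h3
      have e1 : ((M + 1 - 1 : ℕ) : ℝ) = M := by norm_num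
      have e2 : ((k + 1 - 1 : ℕ) : ℝ) = k := by norm_num
      rw [e1] at h1
      rw [e2] at h3
      exact h1.trans (mul_le_mul_of_nonneg_left h3 (by positivity))
  have hN0 : (0 : ℝ) < N := by
    have : 0 < N := by omega
    exact_mod_cast this
  have hMN : (N : ℝ) ≤ 4 * k * M := by
    have h1 : N ≤ 4 * k * M := by
      have : (M + 1) * (2 * k) ≤ (2 * M) * (2 * k) := Nat.mul_le_mul_right _ (by omega)
      calc N ≤ (2 * M) * (2 * k) := by omega
        _ = 4 * k * M := by ring
    exact_mod_cast h1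
  have e : 4 * (k : ℝ) ^ 2 * 4 ^ k * (T / N) = (4 * k * (4 ^ k * (k * T))) / N := by ring
  rw [e, le_div_iff₀ hN0]
  have h1 : ‖fs k b α x‖ ^ 2 * N ≤ ‖fs k b α x‖ ^ 2 * (4 * k * M) :=
    mul_le_mul_of_nonneg_left hMN (by positivity)
  have h2 := mul_le_mul_of_nonneg_left key (by positivity : (0 : ℝ) ≤ 4 * k)
  linarith

/-- differences -/
lemma fs_dif (k : ℕ) (b : ℕ → ℂ) (α : ℕ → ℝ) (x : ℕ) :
    fs k b α (x + 1) - fs k b α x = fs k (fun r => b r * (ee (α r) - 1)) α x := by
  unfold fs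
  rw [← sum_sub_distrib]
  refine sum_congr rfl fun r _ => ?_
  have e1 : ee (α r * ((x + 1 : ℕ) : ℝ)) = ee (α r) * ee (α r * x) := by
    rw [← ee_add']
    congr 1
    push_cast
    ring
  rw [e1]
  ring

/-- BRN. The inequality of Bernstein for `k` near frequencies. -/
theorem brn : ∀ (k : ℕ) (A : ℝ), 0 ≤ A → ∃ C : ℝ, 1 ≤ C ∧ ∀ (N n : ℕ) (b : ℕ → ℂ)
    (α : ℕ → ℝ) (M : ℝ), 1 ≤ N → (∀ r < k, |α r| ≤ A / N) →
    (∀ x, n ≤ x → x ≤ n + N → ‖fs k b α x‖ ≤ M) →
    ∀ x, n ≤ x → x < n + N → ‖fs k b α (x + 1) - fs k b α x‖ ≤ C / N * M := by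
  intro k
  induction k with
  | zero =>
    intro A _
    refine ⟨1, le_rfl, ?_⟩
    intro N n b α M hN _ hM x hx1 hx2
    have h0 : 0 ≤ M := (norm_nonneg _).trans (hM n le_rfl (by omega))
    have e1 : ∀ y, fs 0 b α y = 0 := fun y => by simp [fs]
    rw [e1, e1, sub_zero, norm_zero]
    positivity
  | succ k ih =>
    intro A hA
    obtain ⟨C', hC', hb⟩ := ih (2 * A) (by linarith)
    refine ⟨16 * C' + 7 * A + 2, by linarith, ?_⟩
    intro N n b α M hN hα hM x hx1 hx2
    have hM0 : 0 ≤ M := (norm_nonneg _).trans (hM n le_rfl (by omega))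
    have hN0 : (0 : ℝ) < N := by exact_mod_cast hN
    rcases Nat.lt_or_ge N 2 with h2 | h2
    · have hN1 : N = 1 := by omega
      refine (norm_sub_le _ _).trans ?_
      have a1 := hM (x + 1) (by omega) (by omega)
      have a2 := hM x hx1 (by omega)
      rw [hN1, Nat.cast_one, div_one]
      have a3 : 0 ≤ (16 * C' + 7 * A) * M := by positivity
      linarith
    obtain ⟨N', hN'⟩ : ∃ N' : ℕ, N = N' + 1 := ⟨N - 1, by omega⟩
    have hN'1 : 1 ≤ N' := by omega
    have hN'0 : (0 : ℝ) < N' := by exact_mod_cast hN'1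
    have hNr : (N : ℝ) = N' + 1 := by
      rw [hN']
      push_cast
      ring
    have hN'1r : (1 : ℝ) ≤ N' := by exact_mod_cast hN'1
    -- the twisted sum
    obtain ⟨v, hv⟩ : ∃ v : ℕ → ℂ, v = fun y : ℕ => ee (-(α k * y)) * fs (k + 1) b α y :=
      ⟨_, rfl⟩
    have hvn : ∀ y, ‖v y‖ = ‖fs (k + 1) b α y‖ := by
      intro y
      rw [hv]
      simp only [norm_mul, norm_ee, one_mul]
    have hvs : ∀ y, v y = fs (k + 1) b (fun r => α r - α k) y := by
      intro y
      rw [hv]
      simp only [fs]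
      rw [mul_sum]
      refine sum_congr rfl fun r _ => ?_
      have e1 : ee ((α r - α k) * y) = ee (-(α k * y)) * ee (α r * y) := by
        rw [← ee_add']
        congr 1
        ring
      rw [e1]
      ring
    obtain ⟨g, hg⟩ : ∃ g : ℕ → ℂ, g = fun y => v (y + 1) - v y := ⟨_, rfl⟩
    have hgs : ∀ y, g y = fs k (fun r => b r * (ee (α r - α k) - 1)) (fun r => α r - α k) y := by
      intro y
      rw [hg]
      simp only [hvs]
      rw [fs_dif]
      unfold fs
      rw [sum_range_succ]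
      simp [ee0]
    obtain ⟨x0, hx0, hmax⟩ := exists_max_image (Icc n (n + N')) (fun y => ‖g y‖)
      ⟨n, mem_Icc.2 ⟨le_rfl, by omega⟩⟩
    rw [mem_Icc] at hx0
    obtain ⟨G, hG⟩ : ∃ G : ℝ, G = ‖g x0‖ := ⟨_, rfl⟩
    have hG0 : 0 ≤ G := by rw [hG]; exact norm_nonneg _
    have hmax' : ∀ y, n ≤ y → y ≤ n + N' → ‖g y‖ ≤ G := fun y h1 h2 => by
      rw [hG]
      exact hmax y (mem_Icc.2 ⟨h1, h2⟩)
    have hstep : ∀ y, n ≤ y → y < n + N' → ‖g (y + 1) - g y‖ ≤ C' / N' * G := by
      have h3 := hb N' n (fun r => b r * (ee (α r - α k) - 1)) (fun r => α r - α k) G hN'1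
        (by
          intro r hr
          have a1 := hα r (by omega)
          have a2 := hα k (by omega)
          have a3 : A / N ≤ A / N' := by
            apply div_le_div_of_nonneg_left hA hN'0
            rw [hNr]
            linarith
          have a4 := abs_sub (α r) (α k)
          have a5 : 2 * A / N' = A / N' + A / N' := by ring
          rw [a5]
          linarith)
        (by
          intro y h1 h2
          rw [← hgs]
          exact hmax' y h1 h2)
      intro y h1 h2
      rw [hgs, hgs]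
      exact h3 y h1 h2
    have hlip : ∀ d y, n ≤ y → y + d ≤ n + N' → ‖g (y + d) - g y‖ ≤ d * (C' / N' * G) := by
      intro d
      induction d with
      | zero =>
        intro y _ _
        simp
      | succ d ihd =>
        intro y h1 h2
        have a1 := ihd y h1 (by omega)
        have a2 := hstep (y + d) (by omega) (by omega)
        have e1 : g (y + (d + 1)) - g y = (g (y + d + 1) - g (y + d)) + (g (y + d) - g y) := by
          rw [← add_assoc]
          ring
        rw [e1]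
        refine (norm_add_le _ _).trans ?_
        push_cast
        linarith
    obtain ⟨L, hL⟩ : ∃ L : ℕ, L = ⌊(N' : ℝ) / (2 * C')⌋₊ := ⟨_, rfl⟩
    have hL1 : (L : ℝ) ≤ N' / (2 * C') := by
      rw [hL]
      exact Nat.floor_le (by positivity)
    have hL2 : (N' : ℝ) / (2 * C') < L + 1 := by
      rw [hL]
      exact Nat.lt_floor_add_one _
    have hL3 : (L : ℝ) * (C' / N' * G) ≤ G / 2 := by
      have a1 := mul_le_mul_of_nonneg_right hL1 (by positivity : 0 ≤ C' / N' * G)
      have e1 : (N' : ℝ) / (2 * C') * (C' / N' * G) = G / 2 := by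
        field_simp
      linarith
    have hL4 : 2 * L ≤ N' := by
      have a1 : (L : ℝ) * (2 * C') ≤ N' := by
        rwa [le_div_iff₀ (by positivity)] at hL1
      have a2 : 2 * (L : ℝ) ≤ N' := by
        have : (L : ℝ) * 2 ≤ L * (2 * C') := by
          apply mul_le_mul_of_nonneg_left _ (Nat.cast_nonneg _)
          linarith
        linarith
      exact_mod_cast a2
    have hvM : ∀ y, n ≤ y → y ≤ n + N → ‖v y‖ ≤ M := fun y h1 h2 => by
      rw [hvn]
      exact hM y h1 h2
    -- a start point `y0` with all `L + 1` values near to the maximum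
    obtain ⟨y0, hy1, hy2, hy3⟩ : ∃ y0, n ≤ y0 ∧ y0 + L ≤ n + N' ∧
        ∀ j ≤ L, ‖g (y0 + j) - g x0‖ ≤ G / 2 := by
      rcases le_or_gt (x0 + L) (n + N') with hc | hc
      · refine ⟨x0, hx0.1, hc, fun j hj => ?_⟩
        refine (hlip j x0 hx0.1 (by omega)).trans ?_
        refine le_trans ?_ hL3
        apply mul_le_mul_of_nonneg_right _ (by positivity)
        exact_mod_cast hj
      · refine ⟨x0 - L, by omega, by omega, fun j hj => ?_⟩
        have a1 := hlip (L - j) (x0 - L + j) (by omega) (by omega)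
        have e1 : x0 - L + j + (L - j) = x0 := by omega
        rw [e1, norm_sub_rev] at a1
        refine a1.trans (le_trans ?_ hL3)
        apply mul_le_mul_of_nonneg_right _ (by positivity)
        exact_mod_cast Nat.sub_le _ _
    have hsum : ∑ j ∈ range (L + 1), g (y0 + j) = v (y0 + (L + 1)) - v y0 := by
      have h1 := sum_range_sub (fun j => v (y0 + j)) (L + 1)
      rw [add_zero] at h1
      rw [← h1, hg]
      rfl
    have hGL : ((L : ℝ) + 1) * G ≤ 4 * M := by
      have a1 : ‖∑ j ∈ range (L + 1), (g x0 - g (y0 + j))‖ ≤ (L + 1) * (G / 2) := by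
        refine (norm_sum_le _ _).trans ?_
        have : ∀ j ∈ range (L + 1), ‖g x0 - g (y0 + j)‖ ≤ G / 2 := by
          intro j hj
          rw [mem_range] at hj
          rw [norm_sub_rev]
          exact hy3 j (by omega)
        refine (sum_le_sum this).trans (le_of_eq ?_)
        rw [sum_const, card_range, nsmul_eq_mul]
        push_cast
        ring
      rw [sum_sub_distrib, hsum, sum_const, card_range, nsmul_eq_mul] at a1
      have a2 := hvM (y0 + (L + 1)) (by omega) (by omega)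
      have a3 := hvM y0 hy1 (by omega)
      have a4 := norm_sub_norm_le (((L + 1 : ℕ) : ℂ) * g x0) (v (y0 + (L + 1)) - v y0)
      have a5 := norm_sub_le (v (y0 + (L + 1))) (v y0)
      rw [norm_mul, Complex.norm_natCast, ← hG] at a4
      push_cast at a4 a1
      linarith
    have hGb : G ≤ 16 * C' / N * M := by
      have a1 : (N' : ℝ) / (2 * C') * G ≤ 4 * M :=
        (mul_le_mul_of_nonneg_right hL2.le hG0).trans hGL
      have a2 : (N : ℝ) * G ≤ 16 * C' * M := by
        have a3 : (N' : ℝ) * G ≤ 8 * C' * M := by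
          have e1 : (N' : ℝ) / (2 * C') * G = N' * G / (2 * C') := by ring
          rw [e1, div_le_iff₀ (by positivity)] at a1
          linarith
        have a4 : (N : ℝ) * G ≤ 2 * (N' * G) := by
          rw [hNr]
          have : G ≤ N' * G := le_mul_of_one_le_left hG0 hN'1r
          linarith
        linarith
      have e2 : 16 * C' / N * M = 16 * C' * M / N := by ring
      rw [e2, le_div_iff₀ hN0]
      linarith
    have hux : fs (k + 1) b α (x + 1) - fs (k + 1) b α x =
        ee (α k * ((x + 1 : ℕ) : ℝ)) * g x + (ee (α k) - 1) * (ee (α k * x) * v x) := by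
      have e1 : ∀ y : ℕ, ee (α k * y) * v y = fs (k + 1) b α y := by
        intro y
        rw [hv]
        simp only
        rw [← mul_assoc, ← ee_add', add_neg_cancel]
        unfold ee
        simp
      have e2 : ee (α k * ((x + 1 : ℕ) : ℝ)) = ee (α k) * ee (α k * x) := by
        rw [← ee_add']
        congr 1
        push_cast
        ring
      have e3 := e1 (x + 1)
      rw [← e3, ← e1 x, hg]
      simp only
      rw [e2]
      ring
    rw [hux]
    refine (norm_add_le _ _).trans ?_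
    rw [norm_mul, norm_mul, norm_mul, norm_ee, norm_ee, one_mul, one_mul]
    have b1 := hmax' x hx1 (by omega)
    have b2 := norm_ee_sub_one_le (α k)
    have b3 := hα k (by omega)
    have b4 := hvM x hx1 (by omega)
    have b5 := Real.pi_lt_d2
    have hp := Real.pi_pos
    have b6 : ‖ee (α k) - 1‖ ≤ 7 * (A / N) := by
      refine b2.trans ?_
      exact mul_le_mul (by linarith) b3 (abs_nonneg _) (by norm_num)
    have b7 : ‖ee (α k) - 1‖ * ‖v x‖ ≤ 7 * (A / N) * M :=
      mul_le_mul b6 b4 (norm_nonneg _) (by positivity)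
    have e4 : (16 * C' + 7 * A + 2) / N * M = 16 * C' / N * M + 7 * (A / N) * M + 2 / N * M := by
      ring
    have b8 : 0 ≤ 2 / (N : ℝ) * M := by positivity
    rw [e4]
    linarith

end Pool.Agent.H81.HB
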