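import Pool.Agent.H81.HB.BRN

/-!
# Sums of `k` exponentials on the window `0, .., N - 1`
-/

set_option autoImplicit false

open Finset Pool.Agent.H6.N4D
open Pool.Agent.H3.BT (fs)

namespace Pool.Agent.H81.HB

/-- TUR for the window `0, .., N - 1`. -/
theorem tur0 : ∀ k : ℕ, ∃ T : ℝ, 1 ≤ T ∧ ∀ (N : ℕ) (b : ℕ → ℂ) (a : ℕ → ℝ), 2 * k ≤ N →
    ∀ i < N, ‖∑ r ∈ range k, b r * ee (a r * i)‖ ^ 2 ≤
      T * ((∑ i ∈ range N, ‖∑ r ∈ range k, b r * ee (a r * i)‖ ^ 2) / N) := by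
  intro k
  rcases Nat.eq_zero_or_pos k with hk | hk
  · subst hk
    refine ⟨1, le_rfl, ?_⟩
    intro N b a _ i _
    simp
  · have hkr : (1 : ℝ) ≤ k := by exact_mod_cast hk
    refine ⟨4 * (k : ℝ) ^ 2 * 4 ^ k, ?_, ?_⟩
    · have h1 : (1 : ℝ) ≤ (k : ℝ) ^ 2 := one_le_pow₀ hkr
      have h2 : (1 : ℝ) ≤ 4 ^ k := one_le_pow₀ (by norm_num)
      have h3 : (1 : ℝ) ≤ (k : ℝ) ^ 2 * 4 ^ k := one_le_mul_of_one_le_of_one_le h1 h2
      nlinarith
    · intro N b a hN i hi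
      have e1 : ∀ j : ℕ, ∑ r ∈ range k, b r * ee (a r * j) =
          fs k (fun r => b r * ee (-(a r))) a (j + 1) := by
        intro j
        unfold fs
        refine sum_congr rfl fun r _ => ?_
        rw [mul_assoc, ← ee_add']
        congr 2
        push_cast
        ring
      have h1 := tur k N 0 (fun r => b r * ee (-(a r))) a hk hN (i + 1)
        (mem_Ioc.2 ⟨by omega, by omega⟩)
      have e2 : ∑ y ∈ Ioc 0 (0 + N), ‖fs k (fun r => b r * ee (-(a r))) a y‖ ^ 2 =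
          ∑ i ∈ range N, ‖∑ r ∈ range k, b r * ee (a r * i)‖ ^ 2 := by
        rw [sum_congr rfl fun j (_ : j ∈ range N) => by rw [e1 j]]
        refine sum_nbij' (fun y => y - 1) (fun y => y + 1) ?_ ?_ ?_ ?_ ?_
        · intro y hy
          rw [mem_Ioc] at hy
          rw [mem_range]
          omega
        · intro y hy
          rw [mem_range] at hy
          rw [mem_Ioc]
          omega
        · intro y hy
          rw [mem_Ioc] at hy
          omega
        · intro y hy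
          omega
        · intro y hy
          rw [mem_Ioc] at hy
          have : y - 1 + 1 = y := by omega
          simp only [this]
      rw [e1 i, ← e2]
      exact h1

/-- BRN for the window `0, .., N - 1`. -/
theorem brn0 : ∀ (k : ℕ) (A : ℝ), 0 ≤ A → ∃ (C : ℝ) (N₀ : ℕ), 1 ≤ C ∧ ∀ (N : ℕ) (b : ℕ → ℂ)
    (δ : ℕ → ℝ) (M : ℝ), N₀ ≤ N → (∀ r < k, |δ r| ≤ A / N) →
    (∀ i < N, ‖∑ r ∈ range k, b r * ee (δ r * i)‖ ≤ M) →
    ∀ i, i + 1 < N → ‖∑ r ∈ range k, b r * ee (δ r * (i + 1 : ℕ)) -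
      ∑ r ∈ range k, b r * ee (δ r * i)‖ ≤ C / N * M := by
  intro k A hA
  obtain ⟨C, hC, h⟩ := brn k A hA
  refine ⟨2 * C, 2, by linarith, ?_⟩
  intro N b δ M hN hδ hM i hi
  have hN0 : (0 : ℝ) < N := by
    have : 0 < N := by omega
    exact_mod_cast this
  have hN1 : (0 : ℝ) < ((N - 1 : ℕ) : ℝ) := by
    have : 0 < N - 1 := by omega
    exact_mod_cast this
  have hN2 : (N : ℝ) ≤ 2 * ((N - 1 : ℕ) : ℝ) := by
    have : N ≤ 2 * (N - 1) := by omega
    exact_mod_cast this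
  have hN3 : ((N - 1 : ℕ) : ℝ) ≤ N := by exact_mod_cast Nat.sub_le _ _
  have hM0 : 0 ≤ M := (norm_nonneg _).trans (hM 0 (by omega))
  have h1 := h (N - 1) 0 b δ M (by omega)
    (fun r hr => (hδ r hr).trans (div_le_div_of_nonneg_left hA hN1 hN3))
    (fun x _ hx => hM x (by omega)) i (by omega) (by omega)
  unfold fs at h1
  refine h1.trans ?_
  refine mul_le_mul_of_nonneg_right ?_ hM0
  rw [div_le_div_iff₀ hN1 hN0]
  have h2 := mul_le_mul_of_nonneg_left hN2 (by linarith : 0 ≤ C)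
  linarith

end Pool.Agent.H81.HB
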